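import Pool.Agent.RC84.Main

/-!
# MP_8085d2_al: a torsion-free hyperbolic group with `cd_ℚ ≤ 3` and `cd_ℤ = 5`

Own statement beside the frozen one (S02083): the cohomological dimensions are defined as suprema
in the extended natural numbers, and the integral dimension is computed exactly, so the ratio
`cd_ℚ(G) / cd_ℤ(G)` is defined and at most `3/5`.
-/

set_option autoImplicit false

namespace Pool.Agent.Results.MP_8085d2_al.RatioThreeFifths

open Pool.Agent.RC84

open scoped Classical

/-- The word distance of `g` and `h` for the set `S`: the least length of a word in the elements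
of `S` and their inverses with product `g⁻¹ * h`. -/
noncomputable def wordDist {G : Type} [Group G] (S : Finset G) (g h : G) : ℕ :=
  sInf {n : ℕ | ∃ l : List G, l.length = n ∧ (∀ s ∈ l, s ∈ S ∨ s⁻¹ ∈ S) ∧ l.prod = g⁻¹ * h}

/-- The Gromov product `(x | y)_w` for the word distance. -/
noncomputable def gromovProduct {G : Type} [Group G] (S : Finset G) (w x y : G) : ℝ :=
  ((wordDist S x w : ℝ) + wordDist S y w - wordDist S x y) / 2

/-- `G` is hyperbolic: it has a finite generating set whose word metric satisfies the four-point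
inequality `(x | z)_w ≥ min ((x | y)_w, (y | z)_w) - δ` with one `δ`. -/
def IsHyperbolic (G : Type) [Group G] : Prop :=
  ∃ (S : Finset G) (δ : ℝ), Subgroup.closure (S : Set G) = ⊤ ∧ ∀ x y z w : G,
    min (gromovProduct S w x y) (gromovProduct S w y z) - δ ≤ gromovProduct S w x z

/-- The cohomological dimension of `G` over `R`: the supremum of the `n` for which
`H^n(G; M) ≠ 0` for some `RG`-module `M` (an extended natural number). -/
noncomputable def cd (R G : Type) [CommRing R] [Group G] : ℕ∞ :=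
  sSup {n : ℕ∞ | ∃ (k : ℕ) (M : Rep.{0} R G), n = (k : ℕ∞) ∧ Nontrivial (groupCohomology M k)}

theorem cd_le {R G : Type} [CommRing R] [Group G] {m : ℕ}
    (h : ∀ (A : Rep.{0} R G) (k : ℕ), m < k → Subsingleton (groupCohomology A k)) :
    cd R G ≤ m := by
  refine sSup_le ?_
  rintro n ⟨k, M, rfl, hM⟩
  by_contra hlt
  have hk : m < k := by
    rw [not_le] at hlt
    exact_mod_cast hlt
  exact not_subsingleton _ (h M k hk)

theorem le_cd {R G : Type} [CommRing R] [Group G] (A : Rep.{0} R G) {k : ℕ}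
    (h : Nontrivial (groupCohomology A k)) : (k : ℕ∞) ≤ cd R G :=
  le_sSup ⟨k, A, rfl, h⟩

theorem isHyperbolic_of {G : Type} [Group G]
    (h : ∃ (S : Finset G) (d : G → G → ℕ) (δ : ℕ),
      Subgroup.closure (S : Set G) = ⊤ ∧
      (∀ g h : G, d g h = sInf {n : ℕ | ∃ l : List G, l.length = n ∧
          (∀ s ∈ l, s ∈ S ∨ s⁻¹ ∈ S) ∧ l.prod = g⁻¹ * h}) ∧
      (∀ x y z w : G,
        min ((d x w : ℤ) + (d y w : ℤ) - (d x y : ℤ))
            ((d y w : ℤ) + (d z w : ℤ) - (d y z : ℤ)) - 2 * (δ : ℤ)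
          ≤ (d x w : ℤ) + (d z w : ℤ) - (d x z : ℤ))) : IsHyperbolic G := by
  obtain ⟨S, d, δ, hS, hd, h4⟩ := h
  have hd' : ∀ g h : G, wordDist S g h = d g h := fun g h => (hd g h).symm
  refine ⟨S, δ, hS, fun x y z w => ?_⟩
  have h1 := h4 x y z w
  have h2 : (min ((d x w : ℝ) + (d y w : ℝ) - (d x y : ℝ))
            ((d y w : ℝ) + (d z w : ℝ) - (d y z : ℝ)) - 2 * (δ : ℝ)
          ≤ (d x w : ℝ) + (d z w : ℝ) - (d x z : ℝ)) := by exact_mod_cast h1
  have h3 : min ((((d x w : ℝ) + (d y w : ℝ) - (d x y : ℝ))) / 2)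
      (((d y w : ℝ) + (d z w : ℝ) - (d y z : ℝ)) / 2) =
      min ((d x w : ℝ) + (d y w : ℝ) - (d x y : ℝ))
        ((d y w : ℝ) + (d z w : ℝ) - (d y z : ℝ)) / 2 := by
    rw [min_div_div_right (by norm_num)]
  simp only [gromovProduct, hd']
  rw [h3]
  linarith

/-- There is a nontrivial torsion-free hyperbolic group `G` with `cd_ℤ(G) = 5` and
`cd_ℚ(G) ≤ 3`; so `3 cd_ℚ(G) < 2 cd_ℤ(G)`, that is, `cd_ℚ(G) / cd_ℤ(G) ≤ 3/5 < 2/3`. Moreover
`cd_R(G) ≤ 5` for every commutative ring `R`, and `H^5(G; ℤ/2) ≠ 0` for the trivial action. -/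
theorem result :
    ∃ (G : Type) (_ : Group G), Nontrivial G ∧ (∀ g : G, g ≠ 1 → ¬ IsOfFinOrder g) ∧
      IsHyperbolic G ∧ cd ℤ G = 5 ∧ cd ℚ G ≤ 3 ∧
      (cd ℚ G).toNat / (cd ℤ G).toNat < (2 / 3 : ℝ) ∧
      (∀ (R : Type) [CommRing R], cd R G ≤ 5) ∧
      Nontrivial (groupCohomology (Rep.trivial ℤ G (ZMod 2)) 5) := by
  obtain ⟨Γ, lam, om, hps, hsq, h1, h2, hgen, hexN⟩ := nerve_data
  obtain ⟨Q, iQ, fQ, π, χ, hs, hd, hχ, hp⟩ :=
    exists_deep_quotient Γ lam om h1 h2 3 (by norm_num) 16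
  have hcN : ExactAt (Clq Γ) (ZMod 3) 3 := exactAt_of_exN Γ (ZMod 3) hexN
  have hB : ∀ ω : Fin 8 → ZMod 2,
      Ex3 Γ (ZMod 3) (sgnAct {v | ω ⬝ᵥ lam v = 0} (ZMod 3)) :=
    fun ω => ex3_sign Γ hps (hgen ω) hcN
  have hM := ex3_of_pgroup Γ lam hB π hs χ hχ hp
  have h4 := exact_cubes_zmod Γ hps π hs hd hM
  have hG : Gen Γ Set.univ := by
    have := hgen 0
    simpa using this
  let L : SimpleGraph Q := thick Γ π
  have hcl : ∀ T ∈ cubes Γ π, L.IsClique (T : Set Q) := fun T hT => cubes_clique hT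
  have hac : ∀ (k : Type) [CommRing k], Acyclic k (CP L (cubes Γ π)) := by
    intro k _
    exact CP_acyclic L (cubes Γ π) (Or.inl rfl) hcl
      (fun T hT T' hT' => cube_inter_mem hd hps.card_le hT hT')
      (fun T hT => cubes_cover hd hps.card_le T hT) 16
      (fun T hT => cubes_card hps.card_le hT) k
  have hmono : ∀ (g : (ab L).ker) (x y : CP L (cubes Γ π)), x < y → g • x < g • y :=
    fun g x y h => CP_smul_lt L (cubes Γ π) (g : RA L) x y h
  have hfree : ∀ (g : (ab L).ker) (x : CP L (cubes Γ π)), g • x = x → g = 1 :=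
    fun g x h => CP_free L (cubes Γ π) hcl g x h
  -- cd over any ring is at most 5
  have hcd5 : ∀ (R : Type) [CommRing R], cd R (ab L).ker ≤ 5 := by
    intro R _
    refine cd_le (m := 5) fun A n hn => ?_
    refine cohomology_vanish hmono hfree (hac R) A n (by omega) ?_
    intro f hf hcoc
    refine equivariant_exact hmono hfree (fun x => x.1.ncard) ?_ ?_ (2 ^ 16) ?_ A n ?_ f hf hcoc
    · exact fun x y h => CP_ncard_lt L (cubes Γ π) x y h
    · exact fun g x => CP_ncard_smul L (cubes Γ π) (g : RA L) x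
    · exact fun x => CP_ncard_le L (cubes Γ π) 16 (fun T hT => cubes_card hps.card_le hT) x
    · intro x
      refine CP_upper_exact L (cubes Γ π) hcl A.V n (fun c hc => ?_) x
      apply exactAt_of_no_chain
      intro l hl hm hln
      rcases hc with rfl | ⟨q, T, hT, rfl⟩
      · rcases l with _ | ⟨x, l⟩
        · simp at hln; omega
        · obtain ⟨hx1, hx2⟩ := hm x (by simp)
          rcases hx1 with rfl | ⟨q, T, hT, rfl⟩
          · exact absurd hx2 (lt_irrefl _)
          · have := cubes_chain_length Γ hps π hd q T hT l hl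
              (fun y hy => (hm y (by simp [hy])).1)
            simp at hln
            omega
      · have hch : IsCh (cube Γ π q T :: l) :=
          List.pairwise_cons.2 ⟨fun x hx => (hm x hx).2, hl⟩
        have := cubes_chain_length Γ hps π hd q T hT l hch (fun x hx => (hm x hx).1)
        omega
  have htop := top_class Γ hps π hs hd
  have hcdZ : cd ℤ (ab L).ker = 5 := by
    refine le_antisymm (hcd5 ℤ) ?_
    have := le_cd (Rep.trivial ℤ (ab L).ker (ZMod 2)) (k := 5) htop
    exact_mod_cast this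
  have hcdQ : cd ℚ (ab L).ker ≤ 3 := by
    refine cd_le (m := 3) fun A n hn => ?_
    refine cohomology_vanish hmono hfree (hac ℚ) A n (by omega) ?_
    intro f hf hcoc
    refine equivariant_exact hmono hfree (fun x => x.1.ncard) ?_ ?_ (2 ^ 16) ?_ A n ?_ f hf hcoc
    · exact fun x y h => CP_ncard_lt L (cubes Γ π) x y h
    · exact fun g x => CP_ncard_smul L (cubes Γ π) (g : RA L) x
    · exact fun x => CP_ncard_le L (cubes Γ π) 16 (fun T hT => cubes_card hps.card_le hT) x
    · intro x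
      refine CP_upper_exact L (cubes Γ π) hcl A.V n (fun c hc => ?_) x
      exact cubes_upper_exact Γ hps hG π hs hd h4 A.V n (by omega) c hc
  refine ⟨(ab L).ker, inferInstance, ?_, torsionfree_ker L,
    isHyperbolic_of (hyp_ker L (thick_noSquare hd hps.card_le hsq)), hcdZ, hcdQ, ?_,
    fun R _ => hcd5 R, htop⟩
  · by_contra hnt
    rw [not_nontrivial_iff_subsingleton] at hnt
    have hz := isZero_groupCohomology_succ_of_subsingleton
      (Rep.trivial ℤ (ab L).ker (ZMod 2)) 4
    exact not_subsingleton _ ((ModuleCat.isZero_iff_subsingleton).1 hz)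
  · rw [hcdZ]
    have h3 : (cd ℚ (ab L).ker).toNat ≤ 3 := by
      have := ENat.toNat_le_toNat hcdQ (by simp)
      simpa using this
    have h5 : ((5 : ℕ∞).toNat : ℝ) = 5 := by norm_num
    rw [h5, div_lt_div_iff₀ (by norm_num) (by norm_num)]
    have : ((cd ℚ (ab L).ker).toNat : ℝ) ≤ 3 := by exact_mod_cast h3
    linarith

end Pool.Agent.Results.MP_8085d2_al.RatioThreeFifths
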